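import Pool.Agent.W169.HF.Lap1
import Pool.Agent.W169.HF.DefsL

/-!
# Project HF: Gaussian approximation of the half-line integral
-/

set_option autoImplicit false

open Complex MeasureTheory Filter Topology Set
open scoped ComplexConjugate

namespace Pool.Agent.W736.HF

open Pool.Agent.W169.HF

/-- the centred Gaussian -/
noncomputable def GG (t c u : ℝ) : ℝ := Real.exp (-((u - c) ^ 2 / (4 * t)))

/-- the error density -/
noncomputable def DD (t c u : ℝ) : ℝ :=
  (|u - c| + (u - c) ^ 2) * Real.exp (-((u - c) ^ 2 / (8 * t)))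

lemma DD_nonneg (t c u : ℝ) : 0 ≤ DD t c u := by unfold DD; positivity

lemma GG_nonneg (t c u : ℝ) : 0 ≤ GG t c u := by unfold GG; positivity

/-- the representation of the integrand about the saddle point -/
lemma ww_rep {K a ℓ t : ℝ} {g P : ℝ → ℂ} (h : RP K a ℓ g P) (hK : 1 ≤ K) (ht : 0 < t) {x c u : ℝ}
    (hc : a ≤ c) (hu : a ≤ u) (hPc : (P c).re = (c - x) / (2 * t)) :
    ∃ R : ℂ, ‖R‖ ≤ K * (u - c) ^ 2 ∧
      ww t g x u = ww t g x c * ((GG t c u : ℝ) : ℂ) *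
        (cexp (((P c).im * (u - c) : ℝ) * I) * cexp R) := by
  obtain ⟨R, hR, e⟩ := h.rep (by linarith) hc hu
  refine ⟨R, hR, ?_⟩
  unfold ww GG
  rw [e, Complex.ofReal_exp, Complex.ofReal_exp, Complex.ofReal_exp]
  have e1 : cexp ((x * u / (2 * t) - u ^ 2 / (4 * t) : ℝ) : ℂ) *
      (g c * cexp (P c * ((u - c : ℝ) : ℂ) + R)) =
      g c * cexp (((x * u / (2 * t) - u ^ 2 / (4 * t) : ℝ) : ℂ) + (P c * ((u - c : ℝ) : ℂ) + R)) := by
    rw [Complex.exp_add ((x * u / (2 * t) - u ^ 2 / (4 * t) : ℝ) : ℂ)]; ring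
  have e2 : cexp ((x * c / (2 * t) - c ^ 2 / (4 * t) : ℝ) : ℂ) * g c *
      cexp ((-((u - c) ^ 2 / (4 * t)) : ℝ) : ℂ) *
      (cexp (((P c).im * (u - c) : ℝ) * I) * cexp R) =
      g c * cexp (((x * c / (2 * t) - c ^ 2 / (4 * t) : ℝ) : ℂ) +
        ((-((u - c) ^ 2 / (4 * t)) : ℝ) : ℂ) + (((P c).im * (u - c) : ℝ) * I + R)) := by
    rw [Complex.exp_add, Complex.exp_add, Complex.exp_add]; ring
  rw [e1, e2]
  congr 2
  have hP : P c = (((c - x) / (2 * t) : ℝ) : ℂ) + ((P c).im : ℂ) * I := by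
    rw [← hPc]; exact (Complex.re_add_im (P c)).symm
  have ht' : (t : ℂ) ≠ 0 := by exact_mod_cast ht.ne'
  rw [hP]
  simp only [Complex.add_im, Complex.ofReal_im, Complex.mul_im, Complex.ofReal_re, Complex.I_im,
    Complex.I_re, mul_one, mul_zero, add_zero, zero_add]
  push_cast
  field_simp
  ring

lemma ww_bounds {K a ℓ t : ℝ} {g P : ℝ → ℂ} (h : RP K a ℓ g P) (hK : 1 ≤ K) (ht : 0 < t)
    (htK : t ≤ 1 / (16 * K)) {x c u : ℝ}
    (hc : a ≤ c) (hu : a ≤ u) (hPc : (P c).re = (c - x) / (2 * t)) :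
    ‖ww t g x u - ww t g x c * ((GG t c u : ℝ) : ℂ)‖ ≤ ‖ww t g x c‖ * (K * DD t c u) ∧
    ‖ww t g x u‖ ≤ ‖ww t g x c‖ * Real.exp (-((u - c) ^ 2 / (8 * t))) := by
  obtain ⟨R, hR, e⟩ := ww_rep h hK ht hc hu hPc
  set v := u - c with hv
  have hK0 : 0 < K := by linarith
  have htK' : K ≤ 1 / (8 * t) := by
    rw [le_div_iff₀ (by positivity)]
    rw [le_div_iff₀ (by positivity)] at htK
    nlinarith
  have hexp : Real.exp (-(v ^ 2 / (4 * t))) * Real.exp (K * v ^ 2) ≤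
      Real.exp (-(v ^ 2 / (8 * t))) := by
    rw [← Real.exp_add]
    apply Real.exp_le_exp.2
    have h1 : K * v ^ 2 ≤ 1 / (8 * t) * v ^ 2 := mul_le_mul_of_nonneg_right htK' (sq_nonneg v)
    have h2 : v ^ 2 / (4 * t) = 1 / (8 * t) * v ^ 2 + v ^ 2 / (8 * t) := by field_simp; ring
    rw [h2]
    linarith
  have hb : |(P c).im| ≤ K := h.im c hc
  have hn1 : ‖cexp (((P c).im * v : ℝ) * I)‖ = 1 := Complex.norm_exp_ofReal_mul_I _
  have hn2 : ‖cexp R‖ ≤ Real.exp (K * v ^ 2) := by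
    rw [Complex.norm_exp]
    exact Real.exp_le_exp.2 ((Complex.re_le_norm R).trans hR)
  have hn3 : ‖cexp (((P c).im * v : ℝ) * I) - 1‖ ≤ K * |v| := by
    rw [mul_comm]
    refine (Real.norm_exp_I_mul_ofReal_sub_one_le).trans ?_
    rw [Real.norm_eq_abs, abs_mul]
    exact mul_le_mul_of_nonneg_right hb (abs_nonneg _)
  have hn4 : ‖cexp R - 1‖ ≤ K * v ^ 2 * Real.exp (K * v ^ 2) := by
    have h1 := Complex.norm_exp_sub_sum_le_norm_mul_exp R 1
    simp only [Finset.sum_range_one, pow_zero, Nat.factorial_zero, Nat.cast_one, div_one,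
      pow_one] at h1
    refine h1.trans ?_
    exact mul_le_mul hR (Real.exp_le_exp.2 hR) (Real.exp_pos _).le (by positivity)
  have hE1 : 1 ≤ Real.exp (K * v ^ 2) := Real.one_le_exp (by positivity)
  constructor
  · have e3 : ww t g x u - ww t g x c * ((GG t c u : ℝ) : ℂ) =
        ww t g x c * ((GG t c u : ℝ) : ℂ) *
          (cexp (((P c).im * v : ℝ) * I) * (cexp R - 1) + (cexp (((P c).im * v : ℝ) * I) - 1)) := by
      rw [e]; ring
    rw [e3, norm_mul, norm_mul, Complex.norm_real, Real.norm_of_nonneg (GG_nonneg _ _ _), mul_assoc]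
    apply mul_le_mul_of_nonneg_left _ (norm_nonneg _)
    have h5 : ‖cexp (((P c).im * v : ℝ) * I) * (cexp R - 1) + (cexp (((P c).im * v : ℝ) * I) - 1)‖ ≤
        K * (|v| + v ^ 2) * Real.exp (K * v ^ 2) := by
      refine (norm_add_le _ _).trans ?_
      rw [norm_mul, hn1, one_mul]
      have h6 : K * |v| ≤ K * |v| * Real.exp (K * v ^ 2) :=
        le_mul_of_one_le_right (by positivity) hE1
      calc ‖cexp R - 1‖ + ‖cexp (((P c).im * v : ℝ) * I) - 1‖
          ≤ K * v ^ 2 * Real.exp (K * v ^ 2) + K * |v| * Real.exp (K * v ^ 2) := by linarith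
        _ = _ := by ring
    calc GG t c u * ‖cexp (((P c).im * v : ℝ) * I) * (cexp R - 1) +
          (cexp (((P c).im * v : ℝ) * I) - 1)‖
        ≤ GG t c u * (K * (|v| + v ^ 2) * Real.exp (K * v ^ 2)) :=
          mul_le_mul_of_nonneg_left h5 (GG_nonneg _ _ _)
      _ = K * ((|v| + v ^ 2) * (Real.exp (-(v ^ 2 / (4 * t))) * Real.exp (K * v ^ 2))) := by
          unfold GG; ring
      _ ≤ K * ((|v| + v ^ 2) * Real.exp (-(v ^ 2 / (8 * t)))) := by gcongr
      _ = K * DD t c u := rfl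
  · rw [e, norm_mul, norm_mul, norm_mul, hn1, one_mul, Complex.norm_real,
      Real.norm_of_nonneg (GG_nonneg _ _ _), mul_assoc]
    apply mul_le_mul_of_nonneg_left _ (norm_nonneg _)
    calc GG t c u * ‖cexp R‖ ≤ GG t c u * Real.exp (K * v ^ 2) :=
          mul_le_mul_of_nonneg_left hn2 (GG_nonneg _ _ _)
      _ ≤ _ := hexp

lemma GG_integrable {t : ℝ} (ht : 0 < t) (c : ℝ) : Integrable (GG t c) := by
  have h := gint0 (b := 1 / (4 * t)) (by positivity) c
  refine h.congr (Eventually.of_forall fun u => ?_)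
  simp only [GG]
  congr 1
  ring

/-- the Gaussian mass far from the centre -/
lemma GG_left {t : ℝ} (ht : 0 < t) (ht1 : t ≤ 1) {a c : ℝ} (hc : a + 1 / 4 ≤ c) :
    ∫ u in Iic a, GG t c u ≤ 2560 * t := by
  obtain ⟨hi, hv⟩ := gmom ht ht1 c
  have h1 : ∫ u in Iic a, GG t c u ≤ ∫ u in Iic a, 16 * DD t c u := by
    refine setIntegral_mono_on (GG_integrable ht c).integrableOn
      ((hi.const_mul 16).integrableOn) measurableSet_Iic fun u hu => ?_
    have hu' : u ≤ a := hu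
    unfold GG DD
    have h2 : (1 : ℝ) ≤ 16 * (|u - c| + (u - c) ^ 2) := by
      have : 1 / 4 ≤ c - u := by linarith
      have h3 : (1 / 16 : ℝ) ≤ (u - c) ^ 2 := by nlinarith
      have := abs_nonneg (u - c)
      linarith
    have h4 : Real.exp (-((u - c) ^ 2 / (4 * t))) ≤ Real.exp (-((u - c) ^ 2 / (8 * t))) := by
      apply Real.exp_le_exp.2
      apply neg_le_neg
      apply div_le_div_of_nonneg_left (sq_nonneg _) (by positivity)
      linarith
    calc Real.exp (-((u - c) ^ 2 / (4 * t))) ≤ Real.exp (-((u - c) ^ 2 / (8 * t))) := h4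
      _ ≤ (16 * (|u - c| + (u - c) ^ 2)) * Real.exp (-((u - c) ^ 2 / (8 * t))) :=
          le_mul_of_one_le_left (Real.exp_pos _).le h2
      _ = _ := by ring
  have h5 : ∫ u in Iic a, 16 * DD t c u ≤ ∫ u, 16 * DD t c u :=
    setIntegral_le_integral (hi.const_mul 16)
      (Eventually.of_forall fun u => by have := DD_nonneg t c u; positivity)
  have h6 : ∫ u, 16 * DD t c u ≤ 2560 * t := by
    rw [integral_const_mul]
    have : ∫ u, DD t c u ≤ 160 * t := hv
    linarith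
  linarith

/-- the estimates on the half-line `u > a` -/
lemma right_part {K a ℓ t : ℝ} {g P : ℝ → ℂ} (h : RP K a ℓ g P) (hK : 1 ≤ K) (ht : 0 < t)
    (htK : t ≤ 1 / (16 * K)) {x c : ℝ} (hc : a + 1 / 4 ≤ c)
    (hPc : (P c).re = (c - x) / (2 * t))
    (hint : IntegrableOn (ww t g x) (Ioi a)) :
    ‖(∫ u in Ioi a, ww t g x u) - ((Real.sqrt (4 * Real.pi * t) : ℝ) : ℂ) * ww t g x c‖ ≤
      (160 * K + 2560) * t * ‖ww t g x c‖ ∧
    ∫ u in Ioi a, ‖ww t g x u‖ ≤ (Real.sqrt (4 * Real.pi * t) + 160 * K * t) * ‖ww t g x c‖ ∧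
    (Real.sqrt (4 * Real.pi * t) - (160 * K + 2560) * t) * ‖ww t g x c‖ ≤
      ∫ u in Ioi a, ‖ww t g x u‖ ∧
    ∫ u in Ioi a, |u - c| * ‖ww t g x u‖ ≤ 160 * t * ‖ww t g x c‖ := by
  set w0 := ww t g x c with hw0
  set S := Real.sqrt (4 * Real.pi * t) with hS
  have hK0 : 0 < K := by linarith
  have ht1 : t ≤ 1 := by
    refine htK.trans ?_
    rw [div_le_one (by positivity)]
    linarith
  have hca : a ≤ c := by linarith
  obtain ⟨hDi, hDv⟩ := gmom ht ht1 c
  have hDi' : Integrable (DD t c) := hDi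
  have hDv' : ∫ u, DD t c u ≤ 160 * t := hDv
  have hDa : ∫ u in Ioi a, DD t c u ≤ 160 * t :=
    (setIntegral_le_integral hDi' (Eventually.of_forall fun u => DD_nonneg t c u)).trans hDv'
  have hDa0 : 0 ≤ ∫ u in Ioi a, DD t c u :=
    setIntegral_nonneg measurableSet_Ioi fun u _ => DD_nonneg t c u
  have hGi := GG_integrable ht c
  have hGS : ∫ u, GG t c u = S := gval0 ht c
  have hGsplit : ∫ u in Ioi a, GG t c u = S - ∫ u in Iic a, GG t c u := by
    have h1 := integral_add_compl (μ := volume) (measurableSet_Iic (a := a)) hGi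
    rw [compl_Iic, hGS] at h1
    linarith
  have hGl := GG_left ht ht1 hc
  have hGl0 : 0 ≤ ∫ u in Iic a, GG t c u :=
    setIntegral_nonneg measurableSet_Iic fun u _ => GG_nonneg t c u
  have hb : ∀ u ∈ Ioi a, ‖ww t g x u - w0 * ((GG t c u : ℝ) : ℂ)‖ ≤ ‖w0‖ * (K * DD t c u) :=
    fun u hu => (ww_bounds h hK ht htK hca (le_of_lt hu) hPc).1
  have hDi2 : IntegrableOn (fun u => ‖w0‖ * (K * DD t c u)) (Ioi a) :=
    ((hDi'.const_mul K).const_mul ‖w0‖).integrableOn
  have hDv2 : ∫ u in Ioi a, ‖w0‖ * (K * DD t c u) ≤ 160 * K * t * ‖w0‖ := by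
    rw [integral_const_mul, integral_const_mul]
    have := norm_nonneg w0
    calc ‖w0‖ * (K * ∫ u in Ioi a, DD t c u) ≤ ‖w0‖ * (K * (160 * t)) := by gcongr
      _ = _ := by ring
  have hGiC : IntegrableOn (fun u => w0 * ((GG t c u : ℝ) : ℂ)) (Ioi a) :=
    (hGi.ofReal.const_mul w0).integrableOn
  refine ⟨?_, ?_, ?_, ?_⟩
  · have e1 : (∫ u in Ioi a, w0 * ((GG t c u : ℝ) : ℂ)) =
        ((S - ∫ u in Iic a, GG t c u : ℝ) : ℂ) * w0 := by
      rw [integral_const_mul, ← hGsplit, mul_comm]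
      congr 1
      exact integral_ofReal
    have e2 : (∫ u in Ioi a, ww t g x u) - (S : ℂ) * w0 =
        (∫ u in Ioi a, (ww t g x u - w0 * ((GG t c u : ℝ) : ℂ))) -
          ((∫ u in Iic a, GG t c u : ℝ) : ℂ) * w0 := by
      rw [integral_sub hint hGiC, e1]
      push_cast
      ring
    rw [e2]
    refine (norm_sub_le _ _).trans ?_
    have h1 : ‖∫ u in Ioi a, (ww t g x u - w0 * ((GG t c u : ℝ) : ℂ))‖ ≤ 160 * K * t * ‖w0‖ := by
      refine (norm_integral_le_of_norm_le hDi2 ?_).trans hDv2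
      rw [ae_restrict_iff' measurableSet_Ioi]
      exact Eventually.of_forall hb
    have h2 : ‖((∫ u in Iic a, GG t c u : ℝ) : ℂ) * w0‖ ≤ 2560 * t * ‖w0‖ := by
      rw [norm_mul, Complex.norm_real, Real.norm_of_nonneg hGl0]
      exact mul_le_mul_of_nonneg_right hGl (norm_nonneg _)
    linarith
  · have h1 : ∫ u in Ioi a, ‖ww t g x u‖ ≤
        ∫ u in Ioi a, (‖w0‖ * GG t c u + ‖w0‖ * (K * DD t c u)) := by
      refine setIntegral_mono_on hint.norm
        ((hGi.const_mul _).integrableOn.add hDi2) measurableSet_Ioi fun u hu => ?_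
      have h2 := hb u hu
      have h3 : ‖w0 * ((GG t c u : ℝ) : ℂ)‖ = ‖w0‖ * GG t c u := by
        rw [norm_mul, Complex.norm_real, Real.norm_of_nonneg (GG_nonneg _ _ _)]
      have h4 := norm_sub_norm_le (ww t g x u) (w0 * ((GG t c u : ℝ) : ℂ))
      rw [h3] at h4
      linarith
    have h5 : ∫ u in Ioi a, (‖w0‖ * GG t c u + ‖w0‖ * (K * DD t c u)) =
        ‖w0‖ * (∫ u in Ioi a, GG t c u) + ∫ u in Ioi a, ‖w0‖ * (K * DD t c u) := by
      rw [integral_add (hGi.const_mul _).integrableOn hDi2, integral_const_mul]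
    rw [h5, hGsplit] at h1
    have := norm_nonneg w0
    nlinarith
  · have h1 : ∫ u in Ioi a, (‖w0‖ * GG t c u - ‖w0‖ * (K * DD t c u)) ≤
        ∫ u in Ioi a, ‖ww t g x u‖ := by
      refine setIntegral_mono_on ((hGi.const_mul _).integrableOn.sub hDi2) hint.norm
        measurableSet_Ioi fun u hu => ?_
      have h2 := hb u hu
      have h3 : ‖w0 * ((GG t c u : ℝ) : ℂ)‖ = ‖w0‖ * GG t c u := by
        rw [norm_mul, Complex.norm_real, Real.norm_of_nonneg (GG_nonneg _ _ _)]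
      have h4 := norm_sub_norm_le (w0 * ((GG t c u : ℝ) : ℂ)) (ww t g x u)
      rw [h3, norm_sub_rev] at h4
      linarith
    have h5 : ∫ u in Ioi a, (‖w0‖ * GG t c u - ‖w0‖ * (K * DD t c u)) =
        ‖w0‖ * (∫ u in Ioi a, GG t c u) - ∫ u in Ioi a, ‖w0‖ * (K * DD t c u) := by
      rw [integral_sub (hGi.const_mul _).integrableOn hDi2, integral_const_mul]
    rw [h5, hGsplit] at h1
    have := norm_nonneg w0
    nlinarith
  · have h1 : ∫ u in Ioi a, |u - c| * ‖ww t g x u‖ ≤ ∫ u in Ioi a, ‖w0‖ * DD t c u := by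
      refine integral_mono_of_nonneg (Eventually.of_forall fun u => by positivity)
        (hDi'.const_mul _).integrableOn ?_
      rw [Filter.EventuallyLE, ae_restrict_iff' measurableSet_Ioi]
      refine Eventually.of_forall fun u hu => ?_
      have h2 := (ww_bounds h hK ht htK hca (le_of_lt (show a < u from hu)) hPc).2
      calc |u - c| * ‖ww t g x u‖
          ≤ |u - c| * (‖w0‖ * Real.exp (-((u - c) ^ 2 / (8 * t)))) := by gcongr
        _ = ‖w0‖ * (|u - c| * Real.exp (-((u - c) ^ 2 / (8 * t)))) := by ring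
        _ ≤ ‖w0‖ * DD t c u := by
            unfold DD
            gcongr
            exact le_add_of_nonneg_right (sq_nonneg _)
    rw [integral_const_mul] at h1
    have := norm_nonneg w0
    nlinarith

/-- the decay of the left part -/
lemma left_small {a η K1 δ' : ℝ} (_ha : 0 < a) (hη : 0 < η) (hδ : 0 < δ') {ℓ : ℝ}
    (h1 : 1 ≤ ℓ) (h2 : 8 * a * Real.exp K1 / (η ^ 2 * δ') ≤ ℓ) :
    a * Real.exp (K1 - ℓ * η / 2) ≤ δ' * (1 / ℓ) := by
  have hℓ : 0 < ℓ := by linarith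
  have h3 : (ℓ * η / 2) ^ 2 / 2 ≤ Real.exp (ℓ * η / 2) := by
    have := Real.quadratic_le_exp_of_nonneg (show 0 ≤ ℓ * η / 2 by positivity)
    have h4 : 0 ≤ ℓ * η / 2 := by positivity
    linarith
  rw [Real.exp_sub, ← mul_div_assoc, mul_one_div, div_le_div_iff₀ (Real.exp_pos _) hℓ]
  rw [div_le_iff₀ (by positivity)] at h2
  have h5 : a * Real.exp K1 ≤ δ' * (η ^ 2 * ℓ / 8) := by linarith
  calc a * Real.exp K1 * ℓ ≤ δ' * (η ^ 2 * ℓ / 8) * ℓ := by gcongr
    _ = δ' * ((ℓ * η / 2) ^ 2 / 2) := by ring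
    _ ≤ δ' * Real.exp (ℓ * η / 2) := by gcongr

theorem lmain_of (h1 : S_LINT) (h2 : S_LSAD) (h3 : S_LLEFT) : S_LMAIN := by
  intro K a η δ hK ha hη hδ
  obtain ⟨tA, htA, hA⟩ := h2 K a η hK ha hη
  obtain ⟨tB, K1, htB, hB⟩ := h3 K a η hK ha hη
  set M : ℝ := 160 * K + 2560 with hM
  have hM0 : 0 < M := by rw [hM]; linarith
  set d : ℝ := δ / 4 with hd
  have hd0 : 0 < d := by positivity
  have hK0 : 0 < K := by linarith
  have ha0 : 0 < a := by linarith
  refine ⟨min (min tA tB) (min (1 / (16 * K)) ((d / M) ^ 2)),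
    max 1 (8 * a * Real.exp K1 / (η ^ 2 * d)), by positivity,
    (min_le_right _ _).trans (min_le_left _ _), ?_⟩
  intro ℓ t g P hRP ht htt hℓ hℓ0 hℓt x hx
  have htA' : t ≤ tA := htt.trans ((min_le_left _ _).trans (min_le_left _ _))
  have htB' : t ≤ tB := htt.trans ((min_le_left _ _).trans (min_le_right _ _))
  have htK : t ≤ 1 / (16 * K) := htt.trans ((min_le_right _ _).trans (min_le_left _ _))
  have htM : t ≤ (d / M) ^ 2 := htt.trans ((min_le_right _ _).trans (min_le_right _ _))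
  obtain ⟨c, hc, hPc⟩ := hA ℓ t g P hRP ht htA' hℓ hℓt x hx
  have hleft := hB ℓ t g P hRP ht htB' hℓ hℓt x hx c (by linarith) hPc
  obtain ⟨hi0, hi1, -⟩ := h1 K a ℓ t g P hK ha hRP ht htK x
  have hℓ1 : 1 ≤ ℓ := (le_max_left _ _).trans hℓ0
  have hℓ2 : 8 * a * Real.exp K1 / (η ^ 2 * d) ≤ ℓ := (le_max_right _ _).trans hℓ0
  set S := Real.sqrt (4 * Real.pi * t) with hS
  have hS0 : 0 < S := Real.sqrt_pos.2 (by positivity)
  set w0 := ww t g x c with hw0
  have hw0n : w0 ≠ 0 := by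
    rw [hw0]
    unfold ww
    refine mul_ne_zero ?_ (hRP.ne c (by linarith))
    exact_mod_cast (Real.exp_pos _).ne'
  have hw0p : 0 < ‖w0‖ := norm_pos_iff.2 hw0n
  -- comparison of `t` and `S`
  have hst : Real.sqrt t ≤ S := by
    apply Real.sqrt_le_sqrt
    have := Real.pi_gt_three
    nlinarith
  have hMt : M * t ≤ d * S := by
    have h4 : Real.sqrt t ≤ d / M := by
      rw [Real.sqrt_le_left (by positivity)]
      exact htM
    have h5 : t = Real.sqrt t * Real.sqrt t := (Real.mul_self_sqrt ht.le).symm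
    have h6 : M * Real.sqrt t ≤ d := by
      rw [le_div_iff₀ hM0] at h4
      linarith
    calc M * t = M * Real.sqrt t * Real.sqrt t := by rw [mul_assoc, ← h5]
      _ ≤ d * Real.sqrt t := by gcongr
      _ ≤ d * S := by gcongr
  have hSℓ : 1 / ℓ ≤ S := by
    have hℓp : 0 < ℓ := by linarith
    rw [hS]
    apply Real.le_sqrt_of_sq_le
    have h4 : 1 / (2 * ℓ) ≤ t := by
      rw [div_le_iff₀ (by positivity)]
      nlinarith
    have h5 : (1 / ℓ) ^ 2 ≤ 1 / ℓ := by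
      rw [div_pow, one_pow]
      apply one_div_le_one_div_of_le hℓp
      nlinarith
    have h6 : 1 / ℓ ≤ 4 * Real.pi * (1 / (2 * ℓ)) := by
      have := Real.pi_gt_three
      rw [mul_one_div, div_le_div_iff₀ hℓp (by positivity)]
      nlinarith
    have hpi := Real.pi_pos
    calc (1 / ℓ) ^ 2 ≤ 4 * Real.pi * (1 / (2 * ℓ)) := h5.trans h6
      _ ≤ 4 * Real.pi * t := by gcongr
  have hlsm : a * Real.exp (K1 - ℓ * η / 2) ≤ d * S := by
    refine (left_small ha0 hη hd0 hℓ1 hℓ2).trans ?_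
    gcongr
  -- splitting of the half-line
  have hsub1 : Ioi a ⊆ Ioi (0 : ℝ) := Ioi_subset_Ioi ha0.le
  have hsub2 : Ioc 0 a ⊆ Ioi (0 : ℝ) := fun u hu => hu.1
  have hun : Ioc 0 a ∪ Ioi a = Ioi (0 : ℝ) := Ioc_union_Ioi_eq_Ioi ha0.le
  have hdis : Disjoint (Ioc 0 a) (Ioi a) := by
    rw [Set.disjoint_left]
    intro u hu hu'
    exact absurd hu.2 (not_le.2 hu')
  have hia := hi0.mono_set hsub1
  have hil := hi0.mono_set hsub2
  obtain ⟨r1, r2, r3, r4⟩ := right_part hRP hK ht htK hc hPc hia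
  have hlb : ∀ u ∈ Ioc 0 a, ‖ww t g x u‖ ≤ Real.exp (K1 - ℓ * η / 2) * ‖w0‖ :=
    fun u hu => hleft u hu.1.le hu.2
  have hl1 : ∫ u in Ioc 0 a, ‖ww t g x u‖ ≤ d * S * ‖w0‖ := by
    have h4 : ∫ u in Ioc 0 a, ‖ww t g x u‖ ≤
        ∫ _u in Ioc 0 a, Real.exp (K1 - ℓ * η / 2) * ‖w0‖ := by
      refine setIntegral_mono_on hil.norm ?_ measurableSet_Ioc hlb
      exact integrableOn_const (by simp)
    rw [setIntegral_const] at h4
    have h5 : (volume : Measure ℝ).real (Ioc 0 a) = a := by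
      rw [Measure.real, Real.volume_Ioc, sub_zero, ENNReal.toReal_ofReal ha0.le]
    rw [h5, smul_eq_mul, ← mul_assoc] at h4
    exact h4.trans (mul_le_mul_of_nonneg_right hlsm hw0p.le)
  have hl2 : ∫ u in Ioc 0 a, |u - c| * ‖ww t g x u‖ ≤ c * (d * S * ‖w0‖) := by
    have h4 : ∫ u in Ioc 0 a, |u - c| * ‖ww t g x u‖ ≤ ∫ u in Ioc 0 a, c * ‖ww t g x u‖ := by
      refine integral_mono_of_nonneg (Eventually.of_forall fun u => by positivity)
        (hil.norm.const_mul c) ?_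
      rw [Filter.EventuallyLE, ae_restrict_iff' measurableSet_Ioc]
      refine Eventually.of_forall fun u hu => ?_
      have h5 : |u - c| ≤ c := by
        rw [abs_le]
        constructor <;> [linarith [hu.1]; linarith [hu.2]]
      exact mul_le_mul_of_nonneg_right h5 (norm_nonneg _)
    rw [integral_const_mul] at h4
    have hc0 : 0 ≤ c := by linarith
    exact h4.trans (mul_le_mul_of_nonneg_left hl1 hc0)
  have hWn : ‖(S : ℂ) * w0‖ = S * ‖w0‖ := by
    rw [norm_mul, Complex.norm_real, Real.norm_of_nonneg hS0.le]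
  refine ⟨c, (S : ℂ) * w0, hc, mul_ne_zero (by exact_mod_cast hS0.ne') hw0n, ?_, ?_, ?_, ?_⟩
  · have e1 : hh t g x = (∫ u in Ioc 0 a, ww t g x u) + ∫ u in Ioi a, ww t g x u := by
      rw [← setIntegral_union hdis measurableSet_Ioi hil hia, hun]
      rfl
    rw [e1, hWn]
    have e2 : (∫ u in Ioc 0 a, ww t g x u) + (∫ u in Ioi a, ww t g x u) - (S : ℂ) * w0 =
        (∫ u in Ioc 0 a, ww t g x u) + ((∫ u in Ioi a, ww t g x u) - (S : ℂ) * w0) := by ring
    rw [e2]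
    refine (norm_add_le _ _).trans ?_
    have h4 := (norm_integral_le_integral_norm (μ := volume.restrict (Ioc 0 a))
      (fun u => ww t g x u)).trans hl1
    have h5 : M * t * ‖w0‖ ≤ d * S * ‖w0‖ := mul_le_mul_of_nonneg_right hMt hw0p.le
    have h6 : 0 ≤ d * S * ‖w0‖ := by positivity
    have h7 : δ * (S * ‖w0‖) = 4 * (d * S * ‖w0‖) := by rw [hd]; ring
    rw [h7]
    linarith
  · have e1 : ∫ u in Ioi (0 : ℝ), ‖ww t g x u‖ =
        (∫ u in Ioc 0 a, ‖ww t g x u‖) + ∫ u in Ioi a, ‖ww t g x u‖ := by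
      rw [← setIntegral_union hdis measurableSet_Ioi hil.norm hia.norm, hun]
    rw [e1, hWn]
    have h5 : M * t * ‖w0‖ ≤ d * S * ‖w0‖ := mul_le_mul_of_nonneg_right hMt hw0p.le
    have h6 : 0 ≤ d * S * ‖w0‖ := by positivity
    have h7 : (1 + δ) * (S * ‖w0‖) = S * ‖w0‖ + 4 * (d * S * ‖w0‖) := by rw [hd]; ring
    have h8 : M * t * ‖w0‖ = 160 * K * t * ‖w0‖ + 2560 * t * ‖w0‖ := by rw [hM]; ring
    have h9 : 0 ≤ 2560 * t * ‖w0‖ := by positivity
    rw [h7]
    linarith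
  · rw [hWn]
    have h5 : M * t * ‖w0‖ ≤ d * S * ‖w0‖ := mul_le_mul_of_nonneg_right hMt hw0p.le
    have h6 : 0 ≤ d * S * ‖w0‖ := by positivity
    have h7 : (1 - δ) * (S * ‖w0‖) = S * ‖w0‖ - 4 * (d * S * ‖w0‖) := by rw [hd]; ring
    rw [h7]
    linarith
  · have hIi : IntegrableOn (fun u : ℝ => ((u - c : ℝ) : ℂ) * ww t g x u) (Ioi 0) := by
      have h4 := hi1.sub (hi0.const_mul (c : ℂ))
      refine h4.congr (Eventually.of_forall fun u => ?_)
      simp only [Pi.sub_apply]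
      push_cast
      ring
    have hnorm : ∀ u : ℝ, ‖((u - c : ℝ) : ℂ) * ww t g x u‖ = |u - c| * ‖ww t g x u‖ := by
      intro u
      rw [norm_mul, Complex.norm_real, Real.norm_eq_abs]
    have h4 := norm_integral_le_integral_norm (μ := volume.restrict (Ioi (0 : ℝ)))
      (fun u : ℝ => ((u - c : ℝ) : ℂ) * ww t g x u)
    have e1 : ∫ u in Ioi (0 : ℝ), ‖((u - c : ℝ) : ℂ) * ww t g x u‖ =
        (∫ u in Ioc 0 a, |u - c| * ‖ww t g x u‖) + ∫ u in Ioi a, |u - c| * ‖ww t g x u‖ := by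
      simp only [hnorm]
      have h5 : IntegrableOn (fun u : ℝ => |u - c| * ‖ww t g x u‖) (Ioi 0) := by
        refine hIi.norm.congr (Eventually.of_forall fun u => ?_)
        exact hnorm u
      rw [← setIntegral_union hdis measurableSet_Ioi (h5.mono_set hsub2) (h5.mono_set hsub1), hun]
    rw [e1] at h4
    rw [hWn]
    refine h4.trans ?_
    have hc1 : 3 / 4 ≤ c := by linarith
    have h5 : M * t * ‖w0‖ ≤ d * S * ‖w0‖ := mul_le_mul_of_nonneg_right hMt hw0p.le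
    have h6 : 0 ≤ d * S * ‖w0‖ := by positivity
    have h8 : 160 * t * ‖w0‖ ≤ M * t * ‖w0‖ := by
      have h9 : 160 ≤ M := by rw [hM]; linarith
      exact mul_le_mul_of_nonneg_right (mul_le_mul_of_nonneg_right h9 ht.le) hw0p.le
    have h10 : d * S * ‖w0‖ ≤ 2 * c * (d * S * ‖w0‖) :=
      le_mul_of_one_le_left h6 (by linarith)
    have h7 : δ * c * (S * ‖w0‖) = 4 * c * (d * S * ‖w0‖) := by rw [hd]; ring
    have h11 : 0 ≤ c * (d * S * ‖w0‖) := by positivity
    rw [h7]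
    linarith

end Pool.Agent.W736.HF
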