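import Pool.Agent.W169.HF.DefsB

set_option autoImplicit false

/-!
# Lower bound for the half-line integral: preliminary lemmas

(The lemmas `Q_norm`, `Q_J`, `shift`, `half` are adapted from helper186's modules
`Pool.Agent.W186.HZ.JL`, `Pool.Agent.W186.HZ.JL2`.)
-/

namespace Pool.Agent.W736.HF2

open Complex MeasureTheory Filter Topology Set
open Pool.Agent.W169.HF

lemma sq_id {t ℓ σ r : ℝ} (ht : 0 < t) : -((r - σ) ^ 2 / (4 * t)) + ℓ * r =
    (ℓ * σ + t * ℓ ^ 2) - (r - σ - 2 * t * ℓ) ^ 2 / (4 * t) := by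
  field_simp
  ring

lemma inv_ge {t ℓ X u : ℝ} (ht : 0 < t) (hX : 0 < X) (h2 : 2 * t * ℓ ≤ X) (hu : 0 ≤ u) :
    u * ℓ / (2 * X) ≤ u / (4 * t) := by
  rw [div_le_div_iff₀ (by positivity) (by positivity)]
  nlinarith [mul_le_mul_of_nonneg_left h2 hu]

lemma inv_le {t ℓ g u : ℝ} (ht : 0 < t) (hg : 0 < g) (h1 : g ≤ 2 * t * ℓ) (hu : 0 ≤ u) :
    u / (4 * t) ≤ u * ℓ / (2 * g) := by
  rw [div_le_div_iff₀ (by positivity) (by positivity)]
  nlinarith [mul_le_mul_of_nonneg_left h1 hu]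

/-- pointwise bound away from the saddle point -/
lemma off {t ℓ σ r ϑ g a X θ v0 κ : ℝ} (ht : 0 < t) (hℓ : 0 < ℓ) (hX : 0 < X)
    (h2 : 2 * t * ℓ ≤ X) (hC : ϑ + g / 4 ≤ t * ℓ + σ)
    (ha : 0 < a) (hθ : θ ≤ a / 4) (hv : |v0 - (σ + 2 * t * ℓ)| ≤ θ) (hr : a ≤ |r - v0|)
    (hκ1 : κ ≤ a ^ 2 / (4 * X)) (hκ2 : κ ≤ g / 4) :
    -((r - σ) ^ 2 / (4 * t)) + ℓ * max r ϑ ≤ (ℓ * σ + t * ℓ ^ 2) - κ * ℓ := by
  rcases le_total ϑ r with hyr | hyr
  · rw [max_eq_left hyr, sq_id ht]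
    have h3 : a / 4 * 3 ≤ |r - σ - 2 * t * ℓ| := by
      have h4 : |r - v0| ≤ |r - σ - 2 * t * ℓ| + |v0 - (σ + 2 * t * ℓ)| := by
        have := abs_sub (r - σ - 2 * t * ℓ) (v0 - (σ + 2 * t * ℓ))
        rwa [show r - σ - 2 * t * ℓ - (v0 - (σ + 2 * t * ℓ)) = r - v0 by ring] at this
      linarith
    have h5 : a ^ 2 / 2 ≤ (r - σ - 2 * t * ℓ) ^ 2 := by
      rw [← sq_abs (r - σ - 2 * t * ℓ)]
      have h6 : (a / 4 * 3) ^ 2 ≤ |r - σ - 2 * t * ℓ| ^ 2 := by gcongr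
      nlinarith
    have h6 : a ^ 2 / 2 * ℓ / (2 * X) ≤ (r - σ - 2 * t * ℓ) ^ 2 / (4 * t) :=
      (inv_ge ht hX h2 (by positivity)).trans (by gcongr)
    have h7 : a ^ 2 / 2 * ℓ / (2 * X) = a ^ 2 / (4 * X) * ℓ := by field_simp; ring
    rw [h7] at h6
    nlinarith
  · rw [max_eq_right hyr]
    have h3 : 0 ≤ (r - σ) ^ 2 / (4 * t) := by positivity
    have h4 : ℓ * (ϑ + κ) ≤ ℓ * (t * ℓ + σ) := by
      apply mul_le_mul_of_nonneg_left _ hℓ.le
      linarith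
    nlinarith

/-- pointwise bound far to the right -/
lemma far {t ℓ σ r ϑ0 K X Y κ : ℝ} (ht : 0 < t) (hℓ : 0 < ℓ) (hX : 1 ≤ X) (hY : 3 ≤ Y) (hK : 1 ≤ K)
    (hϑ : ϑ0 ≤ 2) (h2 : 2 * t * ℓ ≤ X) (hσ : σ ≤ Y) (hr : 2 * X + 2 * Y + 4 ≤ r)
    (hκ : κ ≤ 1 / X) (hb : 16 * X * (2 * K + 1) ≤ ℓ) :
    -((r - σ) ^ 2 / (4 * t)) + (ℓ * max r ϑ0 + K * (1 + r ^ 2)) ≤
      (ℓ * σ + t * ℓ ^ 2) - κ * ℓ - r := by
  have hXp : 0 < X := by linarith
  rw [max_eq_left (by linarith), ← add_assoc, sq_id ht]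
  have h3 : r / 2 ≤ r - σ - 2 * t * ℓ := by linarith
  have h4 : (r / 2) ^ 2 ≤ (r - σ - 2 * t * ℓ) ^ 2 := by
    have : 0 ≤ r / 2 := by linarith
    gcongr
  have h5 : (r / 2) ^ 2 * ℓ / (2 * X) ≤ (r - σ - 2 * t * ℓ) ^ 2 / (4 * t) :=
    (inv_ge ht hXp h2 (by positivity)).trans (by gcongr)
  have h6 : (r / 2) ^ 2 * ℓ / (2 * X) = 2 * (r ^ 2 * (ℓ / (16 * X))) := by field_simp; ring
  rw [h6] at h5
  have h7 : 2 * K + 1 ≤ ℓ / (16 * X) := by
    rw [le_div_iff₀ (by positivity)]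
    linarith
  have hr12 : 12 ≤ r := by linarith
  have hr2 : 144 ≤ r ^ 2 := by nlinarith
  have h8 : r ^ 2 * (2 * K + 1) ≤ r ^ 2 * (ℓ / (16 * X)) :=
    mul_le_mul_of_nonneg_left h7 (sq_nonneg r)
  have h9 : κ * ℓ ≤ r ^ 2 * (ℓ / (16 * X)) := by
    calc κ * ℓ ≤ 1 / X * ℓ := mul_le_mul_of_nonneg_right hκ hℓ.le
      _ = 16 * (ℓ / (16 * X)) := by field_simp
      _ ≤ r ^ 2 * (ℓ / (16 * X)) := by
        apply mul_le_mul_of_nonneg_right _ (by positivity)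
        linarith
  have h10 : K * (1 + r ^ 2) + r ≤ r ^ 2 * (2 * K + 1) := by nlinarith
  linarith

lemma re_sq (w : ℂ) : (w ^ 2).re = w.re ^ 2 - w.im ^ 2 := by
  rw [sq, Complex.mul_re]; ring

/-- norm of the integrand -/
lemma Q_norm {t s : ℝ} (ht : 0 < t) (hs : s ^ 2 = 1 / (2 * t)) (f : ℂ → ℂ) (z w : ℂ) :
    ‖Q f s z w‖ = Real.exp (-(((w.re - z.re) ^ 2 - (w.im - z.im) ^ 2) / (4 * t))) * ‖f w‖ := by
  unfold Q
  rw [norm_mul, Complex.norm_exp]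
  congr 2
  have e : -((s : ℂ) ^ 2 * (w - z) ^ 2 / 2) = ((-(1 / (4 * t)) : ℝ) : ℂ) * (w - z) ^ 2 := by
    have h1 : ((s : ℂ)) ^ 2 = ((1 / (2 * t) : ℝ) : ℂ) := by rw [← hs]; push_cast; ring
    rw [h1]
    have : (t : ℂ) ≠ 0 := by exact_mod_cast ht.ne'
    push_cast
    field_simp
    ring
  rw [e, Complex.re_ofReal_mul, re_sq, Complex.sub_re, Complex.sub_im]
  ring

lemma Q_diff {f : ℂ → ℂ} (hf : Differentiable ℂ f) (s : ℝ) (z : ℂ) : Differentiable ℂ (Q f s z) := by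
  unfold Q
  fun_prop

/-- relation with the integrand of `J` -/
lemma Q_J {t s : ℝ} (ht : 0 < t) (hs : s ^ 2 = 1 / (2 * t)) (f : ℂ → ℂ) (a : ℂ) (r : ℝ) :
    Q f s (2 * t * a) r = cexp (-(t * a ^ 2)) * (cexp (-((r : ℂ) ^ 2 / (4 * t)) + a * r) * f r) := by
  unfold Q
  rw [← mul_assoc, ← Complex.exp_add]
  congr 2
  have h1 : ((s : ℂ)) ^ 2 = ((1 / (2 * t) : ℝ) : ℂ) := by rw [← hs]; push_cast; ring
  rw [h1]
  have : (t : ℂ) ≠ 0 := by exact_mod_cast ht.ne'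
  push_cast
  field_simp
  ring

/-- shifting the contour to the real line -/
lemma shift {f : ℂ → ℂ} (hf : Differentiable ℂ f) (a B : ℝ) (w0 : ℂ)
    (hB : ∀ x η : ℝ, (x = w0.re - a ∨ x = w0.re + a) → η ∈ uIcc 0 w0.im → ‖f (x + η * I)‖ ≤ B)
    (h0 : |w0.im| ≤ 1) :
    ‖∫ u in (-a)..a, f (w0 + u)‖ - 2 * B ≤ ‖∫ x in (w0.re - a)..(w0.re + a), f x‖ := by
  have key := Complex.integral_boundary_rect_eq_zero_of_differentiableOn f
    (((w0.re - a : ℝ) : ℂ) + (0 : ℝ) * I) (((w0.re + a : ℝ) : ℂ) + w0.im * I) hf.differentiableOn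
  have r1 : (((w0.re - a : ℝ) : ℂ) + (0 : ℝ) * I).re = w0.re - a := by simp
  have r2 : (((w0.re - a : ℝ) : ℂ) + (0 : ℝ) * I).im = 0 := by simp
  have r3 : (((w0.re + a : ℝ) : ℂ) + w0.im * I).re = w0.re + a := by simp
  have r4 : (((w0.re + a : ℝ) : ℂ) + w0.im * I).im = w0.im := by simp
  rw [r1, r2, r3, r4] at key
  have e1 : ∫ x in (w0.re - a)..(w0.re + a), f (x + w0.im * I) = ∫ u in (-a)..a, f (w0 + u) := by
    have := intervalIntegral.integral_comp_add_left (a := -a) (b := a)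
      (fun x : ℝ => f (x + w0.im * I)) w0.re
    rw [← sub_eq_add_neg] at this
    rw [← this]
    apply intervalIntegral.integral_congr
    intro u _
    simp only
    congr 1
    conv_rhs => rw [← Complex.re_add_im w0]
    push_cast
    ring
  have e2 : ∫ x in (w0.re - a)..(w0.re + a), f (x + (0 : ℝ) * I) =
      ∫ x in (w0.re - a)..(w0.re + a), f x := by
    apply intervalIntegral.integral_congr
    intro u _
    simp
  rw [e1, e2] at key
  have hv : ∀ x : ℝ, (x = w0.re - a ∨ x = w0.re + a) → ‖∫ y in (0 : ℝ)..w0.im, f (x + y * I)‖ ≤ B := by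
    intro x hx
    have hB0 : 0 ≤ B := (norm_nonneg _).trans (hB x 0 hx left_mem_uIcc)
    have h1 := intervalIntegral.norm_integral_le_of_norm_le_const (a := 0) (b := w0.im) (C := B)
      (f := fun y : ℝ => f (x + y * I)) (fun y hy => hB x y hx (uIoc_subset_uIcc hy))
    refine h1.trans ?_
    calc B * |w0.im - 0| ≤ B * 1 := by
          rw [sub_zero]
          gcongr
      _ = B := mul_one B
  have h3 := hv (w0.re + a) (Or.inr rfl)
  have h4 := hv (w0.re - a) (Or.inl rfl)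
  have e3 : ∫ u in (-a)..a, f (w0 + u) = (∫ x in (w0.re - a)..(w0.re + a), f x) +
      I • (∫ y in (0 : ℝ)..w0.im, f (((w0.re + a : ℝ) : ℂ) + y * I)) -
      I • ∫ y in (0 : ℝ)..w0.im, f (((w0.re - a : ℝ) : ℂ) + y * I) := by
    linear_combination -key
  rw [e3]
  have h5 : ‖I • (∫ y in (0 : ℝ)..w0.im, f (((w0.re + a : ℝ) : ℂ) + y * I))‖ ≤ B := by
    rw [norm_smul, Complex.norm_I, one_mul]; exact h3
  have h6 : ‖I • (∫ y in (0 : ℝ)..w0.im, f (((w0.re - a : ℝ) : ℂ) + y * I))‖ ≤ B := by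
    rw [norm_smul, Complex.norm_I, one_mul]; exact h4
  have h7 := norm_sub_le ((∫ x in (w0.re - a)..(w0.re + a), f x) +
      I • (∫ y in (0 : ℝ)..w0.im, f (((w0.re + a : ℝ) : ℂ) + y * I)))
      (I • ∫ y in (0 : ℝ)..w0.im, f (((w0.re - a : ℝ) : ℂ) + y * I))
  have h8 := norm_add_le (∫ x in (w0.re - a)..(w0.re + a), f x)
      (I • (∫ y in (0 : ℝ)..w0.im, f (((w0.re + a : ℝ) : ℂ) + y * I)))
  linarith

lemma expint : IntegrableOn (fun r : ℝ => Real.exp (-r)) (Ioi 0) ∧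
    ∫ r in Ioi (0 : ℝ), Real.exp (-r) = 1 := by
  refine ⟨?_, integral_exp_neg_Ioi_zero⟩
  have := exp_neg_integrableOn_Ioi 0 (b := 1) one_pos
  simpa using this

/-- the lower bound for the half-line integral of a function which is small away from a segment -/
lemma half {f : ℝ → ℂ} {v a B : ℝ} (hc : Continuous f) (hv : a < v) (ha : 0 < a) (hB : 0 ≤ B)
    (hb : ∀ r : ℝ, 0 < r → a ≤ |r - v| → ‖f r‖ ≤ B * Real.exp (-r)) :
    ‖∫ r in (v - a)..(v + a), f r‖ - B ≤ ‖∫ r in Ioi (0 : ℝ), f r‖ := by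
  obtain ⟨C, hC⟩ := (isCompact_Icc (a := v - a) (b := v + a)).exists_bound_of_continuousOn
    hc.continuousOn
  have hC0 : 0 ≤ C := (norm_nonneg _).trans (hC v ⟨by linarith, by linarith⟩)
  have hf : IntegrableOn f (Ioi 0) := by
    refine Integrable.mono' (expint.1.const_mul (B + C * Real.exp (v + a)))
      hc.aestronglyMeasurable ?_
    refine (ae_restrict_mem measurableSet_Ioi).mono fun r hr => ?_
    rw [add_mul]
    rcases le_or_gt a |r - v| with h | h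
    · have h1 := hb r hr h
      have h2 : 0 ≤ C * Real.exp (v + a) * Real.exp (-r) := by positivity
      linarith
    · rw [abs_lt] at h
      have h1 := hC r ⟨by linarith [h.1], by linarith [h.2]⟩
      have h2 : C ≤ C * Real.exp (v + a) * Real.exp (-r) := by
        rw [mul_assoc, ← Real.exp_add]
        have : 1 ≤ Real.exp (v + a + -r) := Real.one_le_exp (by linarith [h.2])
        exact le_mul_of_one_le_right hC0 this
      have h3 : 0 ≤ B * Real.exp (-r) := by positivity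
      linarith
  have hsubset : Ioc (v - a) (v + a) ⊆ Ioi (0 : ℝ) := fun r hr => by
    have : 0 < v - a := by linarith
    exact this.trans hr.1
  have hdiff := integral_diff (μ := volume) (f := f)
    (s := Ioi (0 : ℝ)) (t := Ioc (v - a) (v + a)) measurableSet_Ioc hf hsubset
  have hbd : ∀ r ∈ Ioi (0 : ℝ) \ Ioc (v - a) (v + a), ‖f r‖ ≤ B * Real.exp (-r) := by
    rintro r ⟨hr0, hr1⟩
    refine hb r hr0 ?_
    by_contra hcon
    push Not at hcon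
    rw [abs_lt] at hcon
    exact hr1 ⟨by linarith [hcon.1], by linarith [hcon.2]⟩
  have hmeas : MeasurableSet (Ioi (0 : ℝ) \ Ioc (v - a) (v + a)) :=
    measurableSet_Ioi.diff measurableSet_Ioc
  have hi := (expint.1.mono_set (diff_subset (s := Ioi (0 : ℝ)) (t := Ioc (v - a) (v + a)))).const_mul B
  have h6 := norm_integral_le_of_norm_le hi ((ae_restrict_mem hmeas).mono hbd)
  have hrest : ‖∫ r in Ioi (0 : ℝ) \ Ioc (v - a) (v + a), f r‖ ≤ B := by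
    refine h6.trans ?_
    rw [integral_const_mul]
    have h7 : ∫ r in Ioi (0 : ℝ) \ Ioc (v - a) (v + a), Real.exp (-r) ≤ 1 := by
      rw [← expint.2]
      exact setIntegral_mono_set expint.1 (Eventually.of_forall fun r => (Real.exp_pos _).le)
        (HasSubset.Subset.eventuallyLE diff_subset)
    nlinarith
  have hIoc : ∫ r in Ioc (v - a) (v + a), f r = ∫ r in (v - a)..(v + a), f r :=
    (intervalIntegral.integral_of_le (by linarith)).symm
  rw [hIoc] at hdiff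
  have h9 : ∫ r in (v - a)..(v + a), f r = (∫ r in Ioi (0 : ℝ), f r) -
      ∫ r in Ioi (0 : ℝ) \ Ioc (v - a) (v + a), f r := by
    rw [hdiff]; ring
  rw [h9]
  have := norm_sub_le (∫ r in Ioi (0 : ℝ), f r) (∫ r in Ioi (0 : ℝ) \ Ioc (v - a) (v + a), f r)
  linarith

/-- final numerical step -/
lemma fin_num {ℓ M δ κ G I J : ℝ} (hG : 0 < G) (hδκ : 32 * δ ≤ κ) (hδ : 0 < δ)
    (h1 : 8 ≤ δ * ℓ) (hI : G * Real.exp (M - 3 / 8 * δ * ℓ) - 3 * (G * Real.exp (M - κ * ℓ / 2)) ≤ J)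
    (hJ : J ≤ I) (hℓ : 0 < ℓ) :
    G * Real.exp (M - δ * ℓ) ≤ I := by
  refine le_trans ?_ hJ
  refine le_trans ?_ hI
  have h2 : Real.exp (M - κ * ℓ / 2) ≤ Real.exp (M - 3 / 8 * δ * ℓ) * (1 / 6) := by
    have e : Real.exp (M - κ * ℓ / 2) = Real.exp (M - 3 / 8 * δ * ℓ) *
        Real.exp (-(κ * ℓ / 2 - 3 / 8 * δ * ℓ)) := by
      rw [← Real.exp_add]; congr 1; ring
    rw [e]
    apply mul_le_mul_of_nonneg_left _ (Real.exp_pos _).le
    have h2 : 2 ≤ κ * ℓ / 2 - 3 / 8 * δ * ℓ := by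
      have := mul_le_mul_of_nonneg_right hδκ hℓ.le
      nlinarith
    have h3 : Real.exp (-(κ * ℓ / 2 - 3 / 8 * δ * ℓ)) ≤ Real.exp (-2) := Real.exp_le_exp.2 (by linarith)
    refine h3.trans ?_
    rw [Real.exp_neg, ← one_div]
    apply one_div_le_one_div_of_le (by norm_num)
    have h4 : Real.exp 2 = Real.exp 1 ^ 2 := by rw [← Real.exp_nat_mul]; norm_num
    rw [h4]
    have := Real.exp_one_gt_d9
    nlinarith
  have h3 : Real.exp (M - δ * ℓ) ≤ Real.exp (M - 3 / 8 * δ * ℓ) * (1 / 2) := by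
    have e : Real.exp (M - δ * ℓ) = Real.exp (M - 3 / 8 * δ * ℓ) * Real.exp (-(5 / 8 * (δ * ℓ))) := by
      rw [← Real.exp_add]; congr 1; ring
    rw [e]
    apply mul_le_mul_of_nonneg_left _ (Real.exp_pos _).le
    have h3 : Real.exp (-(5 / 8 * (δ * ℓ))) ≤ Real.exp (-1) := Real.exp_le_exp.2 (by linarith)
    refine h3.trans ?_
    rw [Real.exp_neg, ← one_div]
    apply one_div_le_one_div_of_le (by norm_num)
    have := Real.exp_one_gt_d9
    linarith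
  have h4 := Real.exp_pos (M - 3 / 8 * δ * ℓ)
  have h5 : Real.exp (M - δ * ℓ) ≤ Real.exp (M - 3 / 8 * δ * ℓ) - 3 * Real.exp (M - κ * ℓ / 2) := by
    linarith
  have h6 := mul_le_mul_of_nonneg_left h5 hG.le
  linarith

end Pool.Agent.W736.HF2
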